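import Pool.Agent.H74.G.R_seed8.W564.SC.Defs

/-!
# Project SC, part NBHD: small pushes and small parameters stay in a given neighbourhood
-/

open scoped Manifold ContDiff Topology
open Filter Set Metric

universe u

set_option linter.unusedSectionVars false

namespace Pool.Agent.W923.SC

open Pool.Agent.H718R2.G Pool.Agent.W564.SC

theorem small_mono {n k k' : ℕ} {κ κ' : ℝ} {u : V n → V n} (h : Small n k κ u) (hk : k' ≤ k)
    (hκ : κ ≤ κ') : Small n k' κ' u :=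
  ⟨h.smooth, h.supp, fun j hj x => (h.bd j (hj.trans hk) x).trans hκ⟩

theorem small_zero {n k : ℕ} : Small n k 0 (0 : V n → V n) := by
  refine ⟨contDiff_const, fun _ _ => rfl, fun j _ x => ?_⟩
  have h : iteratedFDeriv ℝ j (0 : V n → V n) x = 0 := by
    have h1 : (0 : V n → V n) = fun _ => (0 : V n) := rfl
    rw [h1, iteratedFDeriv_fun_zero]
    rfl
  rw [h, norm_zero]

section
variable {n : ℕ} {N : Type u} [TopologicalSpace N] [T2Space N] [CompactSpace N]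
    [ChartedSpace (V n) N] [IsManifold (𝓡 n) ∞ N]

theorem isPush_refl {r : ℕ∞} (χ : OpenPartialHomeomorph N (V n)) :
    IsPush n N r χ 0 (Diffeomorph.refl (𝓡 n) N r) := by
  refine ⟨fun y hy => ⟨hy, ?_⟩, fun y _ => rfl⟩
  simp

theorem isFam_const {r : ℕ∞} {P : Type} [NormedAddCommGroup P] [NormedSpace ℝ P]
    (f : DiffM n N r) : IsFam n N r (fun _ : P => f) := by
  intro y
  have h : ContMDiff (𝓘(ℝ, P).prod (𝓡 n)) (𝓡 n) r (fun q : P × N => f q.2) :=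
    f.contMDiff_toFun.comp contMDiff_snd
  exact h.contMDiffAt

theorem single (h : S_LOC.{u}) {r : ℕ∞} {P : Type} [NormedAddCommGroup P]
    [NormedSpace ℝ P] (H : P → DiffM n N r) (hH : IsFam n N r H)
    (χ : OpenPartialHomeomorph N (V n)) (z : N) (hχ : GoodChart n N χ z)
    (D : StrongData n N) (k : ℕ) (f : DiffM n N r) (hk : (k : ℕ∞) ≤ r)
    (hf : ∀ i, ∀ x ∈ D.K i, f x ∈ (D.ψ i).source) (h0 : H 0 ∈ strongNbhd D k f) :
    ∃ κ : ℝ, 0 < κ ∧ ∀ (s : P) (u : V n → V n) (Θ : DiffM n N r), ‖s‖ < κ → Small n k κ u →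
        IsPush n N r χ u Θ → (H s).trans Θ ∈ strongNbhd D k f := by
  by_contra hcon
  push Not at hcon
  have hpos : ∀ m : ℕ, (0 : ℝ) < 1 / ((m : ℝ) + 1) := fun m => by positivity
  choose s u Θ hs hu hΘ hno using fun m : ℕ => hcon (1 / ((m : ℝ) + 1)) (hpos m)
  have hno' : ∀ m, ∃ i, ∃ x, x ∈ D.K i ∧ ¬ (Θ m (H (s m) x) ∈ (D.ψ i).source ∧ ∀ j : ℕ, j ≤ k →
      ‖iteratedFDeriv ℝ j (D.ψ i ∘ (fun y => Θ m (H (s m) y)) ∘ (D.φ i).symm) (D.φ i x)
        - iteratedFDeriv ℝ j (D.ψ i ∘ f ∘ (D.φ i).symm) (D.φ i x)‖ < D.ε i) := by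
    intro m
    by_contra hc
    push Not at hc
    apply hno m
    intro i x hx
    exact hc i x hx
  choose i x hx hbad using hno'
  -- the index can be taken constant
  have hfin : {i | ((D.φ i).source).Nonempty}.Finite := D.lf.finite_nonempty_of_compact
  have hne : ∀ m, ((D.φ (i m)).source).Nonempty := fun m => ⟨x m, D.sub _ (hx m)⟩
  have := hfin.to_subtype
  obtain ⟨i₀, hi₀⟩ := Finite.exists_infinite_fiber
    (fun m => (⟨i m, hne m⟩ : {i | ((D.φ i).source).Nonempty}))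
  have hinf : {m | i m = i₀.1}.Infinite := by
    rw [Set.infinite_coe_iff] at hi₀
    refine hi₀.mono ?_
    intro m hm
    exact congrArg Subtype.val hm
  obtain ⟨g₁, hg₁, hi₁⟩ := extraction_of_frequently_atTop (Nat.frequently_atTop_iff_infinite.mpr hinf)
  have : SecondCountableTopology N := ChartedSpace.secondCountable_of_sigmaCompact (V n) N
  obtain ⟨x₀, g₂, hg₂, hx₀⟩ := CompactSpace.tendsto_subseq (x ∘ g₁)
  set g : ℕ → ℕ := g₁ ∘ g₂ with hg
  have hgm : StrictMono g := hg₁.comp hg₂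
  have hgt : Tendsto g atTop atTop := hgm.tendsto_atTop
  have hig : ∀ m, i (g m) = i₀.1 := fun m => hi₁ _
  have hxg : Tendsto (fun m => x (g m)) atTop (𝓝 x₀) := hx₀
  have hxK : ∀ m, x (g m) ∈ D.K i₀.1 := fun m => by
    have := hx (g m)
    rwa [hig m] at this
  have hx₀K : x₀ ∈ D.K i₀.1 :=
    (D.compact i₀.1).isClosed.mem_of_tendsto hxg (Eventually.of_forall hxK)
  have hκ : Tendsto (fun m => 1 / ((g m : ℕ) + 1 : ℝ)) atTop (𝓝 0) :=
    (tendsto_one_div_add_atTop_nhds_zero_nat (𝕜 := ℝ)).comp hgt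
  have hs0 : Tendsto (fun m => s (g m)) atTop (𝓝 0) := by
    rw [tendsto_zero_iff_norm_tendsto_zero]
    exact squeeze_zero (fun m => norm_nonneg _) (fun m => (hs (g m)).le) hκ
  obtain ⟨hsrc, hder⟩ := h n N r P H hH χ z hχ k hk (D.φ i₀.1) (D.ψ i₀.1) (D.φ_mem _) (D.ψ_mem _)
    (fun m => x (g m)) x₀ hxg (D.sub _ hx₀K) (h0 i₀.1 x₀ hx₀K).1 (fun m => s (g m)) hs0
    (fun m => u (g m)) (fun m => 1 / ((g m : ℕ) + 1 : ℝ)) hκ (fun m => hu (g m))
    (fun m => Θ (g m)) (fun m => hΘ (g m))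
  obtain ⟨-, hderf⟩ := h n N r P (fun _ => f) (isFam_const f) χ z hχ k hk (D.φ i₀.1) (D.ψ i₀.1)
    (D.φ_mem _) (D.ψ_mem _)
    (fun m => x (g m)) x₀ hxg (D.sub _ hx₀K) (hf i₀.1 x₀ hx₀K) (fun _ => 0) tendsto_const_nhds
    (fun _ => 0) (fun _ => 0) tendsto_const_nhds (fun _ => small_zero)
    (fun _ => Diffeomorph.refl (𝓡 n) N r) (fun _ => isPush_refl χ)
  have hev : ∀ j : ℕ, j ≤ k → ∀ᶠ m in atTop,
      ‖iteratedFDeriv ℝ j (D.ψ i₀.1 ∘ (fun y => Θ (g m) (H (s (g m)) y)) ∘ (D.φ i₀.1).symm)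
          (D.φ i₀.1 (x (g m)))
        - iteratedFDeriv ℝ j (D.ψ i₀.1 ∘ f ∘ (D.φ i₀.1).symm) (D.φ i₀.1 (x (g m)))‖ < D.ε i₀.1 := by
    intro j hj
    have h1 := ((hder j hj).sub (hderf j hj)).norm
    exact h1.eventually (gt_mem_nhds ((h0 i₀.1 x₀ hx₀K).2 j hj))
  have hall : ∀ᶠ m in atTop, ∀ j ∈ Finset.range (k + 1),
      ‖iteratedFDeriv ℝ j (D.ψ i₀.1 ∘ (fun y => Θ (g m) (H (s (g m)) y)) ∘ (D.φ i₀.1).symm)
          (D.φ i₀.1 (x (g m)))
        - iteratedFDeriv ℝ j (D.ψ i₀.1 ∘ f ∘ (D.φ i₀.1).symm) (D.φ i₀.1 (x (g m)))‖ < D.ε i₀.1 := by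
    rw [Finset.eventually_all]
    intro j hj
    exact hev j (Nat.lt_succ_iff.mp (Finset.mem_range.mp hj))
  obtain ⟨m, hm1, hm2⟩ := (hsrc.and hall).exists
  have hb := hbad (g m)
  rw [hig m] at hb
  exact hb ⟨hm1, fun j hj => hm2 j (Finset.mem_range.mpr (Nat.lt_succ_iff.mpr hj))⟩

end

theorem nbhd (h : S_LOC.{u}) : S_NBHD.{u} := by
  intro n N _ _ _ _ _ r hr P _ _ H hH χ z hχ U hU h0
  letI : TopologicalSpace (DiffM n N r) := strongTop n N r
  have hbas := TopologicalSpace.isTopologicalBasis_of_subbasis (t := strongTop n N r) rfl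
  obtain ⟨B, ⟨F, ⟨hF1, hF2⟩, rfl⟩, hB1, hB2⟩ := hbas.exists_subset_of_mem_open h0 hU
  have key : ∃ k : ℕ, 1 ≤ k ∧ (k : ℕ∞) ≤ r ∧ ∃ κ : ℝ, 0 < κ ∧
      ∀ (s : P) (u : V n → V n) (Θ : DiffM n N r), ‖s‖ < κ → Small n k κ u →
        IsPush n N r χ u Θ → ∀ S ∈ F, (H s).trans Θ ∈ S := by
    clear hB2 hU h0 U
    induction F, hF1 using Set.Finite.induction_on with
    | empty => exact ⟨1, le_rfl, hr, 1, one_pos, fun _ _ _ _ _ _ S hS => hS.elim⟩
    | insert hS hfin ih =>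
      rename_i S F
      obtain ⟨k, hk1, hkr, κ, hκ, hk⟩ := ih (fun T hT => hF2 (mem_insert_of_mem _ hT))
        (fun T hT => hB1 T (mem_insert_of_mem _ hT))
      obtain ⟨D, k', f, hk'r, hf, rfl⟩ := hF2 (mem_insert _ _)
      obtain ⟨κ', hκ', hk'⟩ := single h H hH χ z hχ D k' f hk'r hf (hB1 _ (mem_insert _ _))
      refine ⟨max k k', le_max_of_le_left hk1, ?_, min κ κ', lt_min hκ hκ', ?_⟩
      · rcases max_choice k k' with hm | hm <;> rw [hm] <;> assumption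
      · intro s u Θ hs hu hΘ T hT
        rcases hT with rfl | hT
        · exact hk' s u Θ (hs.trans_le (min_le_right _ _))
            (small_mono hu (le_max_right _ _) (min_le_right _ _)) hΘ
        · exact hk s u Θ (hs.trans_le (min_le_left _ _))
            (small_mono hu (le_max_left _ _) (min_le_left _ _)) hΘ T hT
  obtain ⟨k, hk1, hkr, κ, hκ, hk⟩ := key
  exact ⟨k, hk1, hkr, κ, hκ, fun s u Θ hs hu hΘ => hB2 (fun S hS => hk s u Θ hs hu hΘ S hS)⟩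

end Pool.Agent.W923.SC
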